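import Pool.Agent.Helper92.RECT.Goals1

/-!
# Packet RECT-GRID: digits of cells and cubes, and the range of the numbers
-/

namespace Pool.Agent.Helper13.RECT

open Pool.Agent.Helper65.LinSpace Pool.Agent.Helper78.Mpc Pool.Agent.Helper28.Ram Finset
open Pool.Agent.Helper92.RECT

theorem bdig_lt (P : Pr) (hd : 0 < P.d) (ho : P.o < P.d) (p k : ℕ) :
    (dig (2 ^ P.κ) p k + P.o) / P.d < 2 ^ P.κ := by
  have h1 : dig (2 ^ P.κ) p k < 2 ^ P.κ := dig_lt (by positivity) _ _
  rw [Nat.div_lt_iff_lt_mul hd]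
  obtain ⟨a, ha⟩ : ∃ a, 2 ^ P.κ = a + 1 := ⟨2 ^ P.κ - 1, by have := Nat.two_pow_pos P.κ; omega⟩
  obtain ⟨b, hb⟩ : ∃ b, P.d = b + 1 := ⟨P.d - 1, by omega⟩
  rw [ha] at h1 ⊢
  rw [hb] at ho ⊢
  nlinarith [Nat.zero_le (a * b)]

theorem grid : GRID_stmt where
  blk_lt P hd ho p := by
    rw [pow_mul]
    exact tab_lt fun k _ => bdig_lt P hd ho p k
  cel_lt P hd p := tab_lt fun k _ => Nat.mod_lt _ hd
  ccl_lt P B j := by
    rw [pow_mul]
    exact tab_lt fun k _ => Nat.mod_lt _ (by positivity)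
  ccl P hd ho p hp := by
    rw [pow_mul] at hp
    unfold Pr.ccl
    conv_rhs => rw [← tab_dig p P.D hp]
    refine tab_congr fun k hk => ?_
    have h1 : dig (2 ^ P.κ) (P.blk p) k = (dig (2 ^ P.κ) p k + P.o) / P.d :=
      dig_tab (fun k _ => bdig_lt P hd ho p k) hk
    have h2 : dig P.d (P.cel p) k = (dig (2 ^ P.κ) p k + P.o) % P.d :=
      dig_tab (fun k _ => Nat.mod_lt _ hd) hk
    have h3 : dig (2 ^ P.κ) p k < 2 ^ P.κ := dig_lt (by positivity) _ _
    rw [h1, h2, Nat.div_add_mod', Nat.add_sub_cancel, Nat.mod_eq_of_lt h3]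
  cross P hd ho p p' := by
    constructor
    · intro h
      by_contra hc
      push Not at hc
      exact h (tab_congr hc)
    · rintro ⟨k, hk, hne⟩ h
      apply hne
      have h1 : dig (2 ^ P.κ) (P.blk p) k = (dig (2 ^ P.κ) p k + P.o) / P.d :=
        dig_tab (fun k _ => bdig_lt P hd ho p k) hk
      have h2 : dig (2 ^ P.κ) (P.blk p') k = (dig (2 ^ P.κ) p' k + P.o) / P.d :=
        dig_tab (fun k _ => bdig_lt P hd ho p' k) hk
      rw [← h1, ← h2, h]

theorem rng : RNG_stmt := by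
  intro P hP t
  have hce : ∀ q, q < 2 ^ P.sx → P.ce q < 2 ^ (P.κ * P.D) := by
    intro q hq
    unfold Pr.ce
    rw [Nat.div_lt_iff_lt_mul (by positivity), ← pow_add, add_comm]
    exact hq
  have main : (P.X t).1 < 2 ^ P.sx ∧ ∀ p, (P.X t).2 p < 2 ^ (P.S + 1) := by
    induction t with
    | zero => exact ⟨hP.q0_lt, hP.M0_lt⟩
    | succ t ih =>
      obtain ⟨h1, h2⟩ := ih
      have e : P.X (t + 1) = (P.N (P.X t).1 ((P.X t).2 (P.ce (P.X t).1)),
          Function.update (P.X t).2 (P.ce (P.X t).1)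
            (P.W (P.X t).1 ((P.X t).2 (P.ce (P.X t).1)))) := rfl
      rw [e]
      refine ⟨hP.N_lt _ _ h1 (h2 _), fun p => ?_⟩
      by_cases hp : p = P.ce (P.X t).1
      · subst hp
        simp only [Function.update_self]
        exact hP.W_lt _ _ h1 (h2 _)
      · simp only [Function.update_of_ne hp]
        exact h2 p
  exact ⟨main.1, hce _ main.1, main.2⟩

end Pool.Agent.Helper13.RECT
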